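import Pool.Agent.X245.RM.Defs
import Pool.Agent.X245.Ev

/-!
# RESET is in PSPACE
-/

namespace Pool.Agent.X245.RM

open Pool.Agent.NPC Pool.Agent.H623R2.PS

set_option autoImplicit false

/-- codes -/
abbrev Code : Type := List (List (ℕ × ℕ))

/-- the number of letters -/
def lt (c : Code) : ℕ := (c.getD 0 []).length

/-- is this the code of an automaton? -/
def okc (c : Code) : Bool :=
  decide (0 < c.length) && c.all fun row => decide (row.length = lt c) &&
    row.all fun x => decide (x.1 < c.length) && decide (x.2 < lt c)

/-- transition -/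
def dN (c : Code) (q a : ℕ) : ℕ := ((c.getD q []).getD a (0, 0)).1

/-- output -/
def oN (c : Code) (q a : ℕ) : ℕ := ((c.getD q []).getD a (0, 0)).2

/-- the automaton of states and pairs of states -/
def bN (c : Code) (s a : ℕ) : ℕ :=
  if s < c.length then dN c s a else
    c.length + (dN c ((s - c.length) / c.length) a * c.length +
      dN c ((s - c.length) % c.length) (oN c ((s - c.length) / c.length) a))

/-- the number of its states -/
def kN (c : Code) : ℕ := c.length + c.length * c.length

/-- characteristic vectors -/
def vec (K : ℕ) (P : ℕ → Bool) : List Bool := (List.range K).map P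

/-- one letter -/
def stepv (c : Code) (a : ℕ) (u : List Bool) : List Bool :=
  (List.range (kN c)).map fun s' => (List.range (kN c)).any fun s =>
    u.getD s false && decide (bN c s a = s')

/-- the relation of configurations -/
def Rl (starts : Code → List (List Bool)) (acc : Code → List Bool → Bool) (c : Code)
    (u v : List Bool) : Bool :=
  !(u.getD 0 true) &&
    ((decide (u.tail = List.replicate (kN c) false) &&
        (starts c).any fun st => decide (v = false :: st)) ||
      (((List.range (lt c)).any fun a => decide (v = false :: stepv c a u.tail)) ||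
        (acc c u.tail && decide (v = true :: List.replicate (kN c) false))))

theorem stepv_zero (c : Code) (a : ℕ) :
    stepv c a (List.replicate (kN c) false) = List.replicate (kN c) false := by
  apply List.ext_getElem
  · simp [stepv]
  · intro i h1 h2
    simp only [stepv, List.getElem_map, List.getElem_range, List.getElem_replicate]
    rw [← Bool.not_eq_true, List.any_eq_true]
    rintro ⟨s, _, hs⟩
    rw [Bool.and_eq_true] at hs
    have h3 := hs.1
    rw [List.getD_eq_getElem?_getD] at h3
    rcases Nat.lt_or_ge s (kN c) with h | h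
    · rw [List.getElem?_eq_getElem (by simpa using h)] at h3
      simp at h3
    · rw [List.getElem?_eq_none (by simpa using h)] at h3
      simp at h3

theorem reach_iff {starts : Code → List (List Bool)} {acc : Code → List Bool → Bool} {c : Code}
    (h0 : acc c (List.replicate (kN c) false) = false) :
    Relation.ReflTransGen (fun u v => Rl starts acc c u v = true)
      (false :: List.replicate (kN c) false) (true :: List.replicate (kN c) false) ↔
    ∃ st ∈ starts c, ∃ w : List ℕ, (∀ a ∈ w, a < lt c) ∧
      acc c (w.foldl (fun u a => stepv c a u) st) = true := by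
  constructor
  · intro h
    have key : ∀ v, Relation.ReflTransGen (fun u v => Rl starts acc c u v = true)
        (false :: List.replicate (kN c) false) v →
        (v = false :: List.replicate (kN c) false ∨
          (∃ st ∈ starts c, ∃ w : List ℕ, (∀ a ∈ w, a < lt c) ∧
            v = false :: w.foldl (fun u a => stepv c a u) st) ∨
          ∃ st ∈ starts c, ∃ w : List ℕ, (∀ a ∈ w, a < lt c) ∧
            acc c (w.foldl (fun u a => stepv c a u) st) = true) := by
      intro v hv
      induction hv with
      | refl => exact Or.inl rfl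
      | @tail u v _ h ih =>
        unfold Rl at h
        simp only [Bool.and_eq_true, Bool.or_eq_true, Bool.not_eq_true', decide_eq_true_eq,
          List.any_eq_true, List.mem_range] at h
        rcases ih with rfl | ⟨st, hst, w, hw, rfl⟩ | ih
        · simp only [List.getD_cons_zero, List.tail_cons, true_and] at h
          rcases h with ⟨st, hst, rfl⟩ | ⟨a, ha, rfl⟩ | h
          · exact Or.inr (Or.inl ⟨st, hst, [], by simp, rfl⟩)
          · left
            rw [stepv_zero]
          · rw [h0] at h
            exact absurd h.1 (by simp)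
        · simp only [List.getD_cons_zero, List.tail_cons, true_and] at h
          rcases h with ⟨_, st', hst', rfl⟩ | ⟨a, ha, rfl⟩ | h
          · exact Or.inr (Or.inl ⟨st', hst', [], by simp, rfl⟩)
          · refine Or.inr (Or.inl ⟨st, hst, w ++ [a], ?_, ?_⟩)
            · intro b hb
              rcases List.mem_append.1 hb with hb | hb
              · exact hw b hb
              · rw [List.mem_singleton] at hb
                rw [hb]; exact ha
            · rw [List.foldl_append]
              rfl
          · exact Or.inr (Or.inr ⟨st, hst, w, hw, h.1⟩)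
        · exact Or.inr (Or.inr ih)
    rcases key _ h with h | ⟨_, _, _, _, h⟩ | h
    · simp at h
    · simp at h
    · exact h
  · rintro ⟨st, hst, w, hw, hacc⟩
    have h1 : Relation.ReflTransGen (fun u v => Rl starts acc c u v = true)
        (false :: List.replicate (kN c) false) (false :: w.foldl (fun u a => stepv c a u) st) := by
      induction w using List.reverseRecOn with
      | nil =>
        refine Relation.ReflTransGen.single ?_
        unfold Rl
        simp only [Bool.and_eq_true, Bool.or_eq_true, Bool.not_eq_true', decide_eq_true_eq,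
          List.any_eq_true, List.mem_range, List.getD_cons_zero, List.tail_cons, true_and]
        exact Or.inl ⟨st, hst, rfl⟩
      | append_singleton w a ih =>
        clear hacc
        have hwa : ∀ a ∈ w, a < lt c := fun b hb => hw b (by simp [hb])
        have ih' : Relation.ReflTransGen (fun u v => Rl starts acc c u v = true)
            (false :: List.replicate (kN c) false)
            (false :: w.foldl (fun u a => stepv c a u) st) := by
          clear ih hw
          induction w using List.reverseRecOn with
          | nil =>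
            refine Relation.ReflTransGen.single ?_
            unfold Rl
            simp only [Bool.and_eq_true, Bool.or_eq_true, Bool.not_eq_true', decide_eq_true_eq,
              List.any_eq_true, List.mem_range, List.getD_cons_zero, List.tail_cons, true_and]
            exact Or.inl ⟨st, hst, rfl⟩
          | append_singleton w a ih2 =>
            refine (ih2 fun b hb => hwa b (by simp [hb])).tail ?_
            unfold Rl
            simp only [Bool.and_eq_true, Bool.or_eq_true, Bool.not_eq_true', decide_eq_true_eq,
              List.any_eq_true, List.mem_range, List.getD_cons_zero, List.tail_cons, true_and]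
            refine Or.inr (Or.inl ⟨a, hwa a (by simp), ?_⟩)
            rw [List.foldl_append]
            rfl
        refine ih'.tail ?_
        unfold Rl
        simp only [Bool.and_eq_true, Bool.or_eq_true, Bool.not_eq_true', decide_eq_true_eq,
          List.any_eq_true, List.mem_range, List.getD_cons_zero, List.tail_cons, true_and]
        refine Or.inr (Or.inl ⟨a, hw a (by simp), ?_⟩)
        rw [List.foldl_append]
        rfl
    refine h1.tail ?_
    unfold Rl
    simp only [Bool.and_eq_true, Bool.or_eq_true, Bool.not_eq_true', decide_eq_true_eq,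
      List.any_eq_true, List.mem_range, List.getD_cons_zero, List.tail_cons, true_and]
    exact Or.inr (Or.inr ⟨hacc, trivial⟩)

theorem vec_getD (K : ℕ) (P : ℕ → Bool) (s : ℕ) :
    (vec K P).getD s false = (decide (s < K) && P s) := by
  unfold vec
  by_cases h : s < K
  · rw [List.getD_eq_getElem _ _ (by simpa using h)]
    simp [h]
  · rw [List.getD_eq_default _ _ (by simpa using h)]
    simp [h]

/-- running on numbers -/
def runB (c : Code) (s : ℕ) (w : List ℕ) : ℕ := w.foldl (bN c) s

theorem foldl_stepv (c : Code) (hb : ∀ s < kN c, ∀ a < lt c, bN c s a < kN c) (P : ℕ → Bool)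
    (w : List ℕ) (hw : ∀ a ∈ w, a < lt c) :
    ∃ P' : ℕ → Bool, w.foldl (fun u a => stepv c a u) (vec (kN c) P) = vec (kN c) P' ∧
      ∀ s' < kN c, (P' s' = true ↔ ∃ s < kN c, P s = true ∧ runB c s w = s') := by
  induction w using List.reverseRecOn with
  | nil =>
    refine ⟨P, rfl, fun s' hs' => ⟨fun h => ⟨s', hs', h, rfl⟩, ?_⟩⟩
    rintro ⟨s, _, h, rfl⟩
    exact h
  | append_singleton w a ih =>
    obtain ⟨P1, h1, h2⟩ := ih (fun b hb => hw b (by simp [hb]))
    rw [List.foldl_append, List.foldl_cons, List.foldl_nil, h1]
    refine ⟨fun s' => (List.range (kN c)).any fun s =>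
      (vec (kN c) P1).getD s false && decide (bN c s a = s'), rfl, fun s' hs' => ?_⟩
    rw [List.any_eq_true]
    constructor
    · rintro ⟨s, hs, h⟩
      rw [List.mem_range] at hs
      rw [vec_getD, Bool.and_eq_true, Bool.and_eq_true, decide_eq_true_eq, decide_eq_true_eq] at h
      obtain ⟨s0, g1, g2, g3⟩ := (h2 s hs).1 h.1.2
      refine ⟨s0, g1, g2, ?_⟩
      unfold runB at g3 ⊢
      rw [List.foldl_append, g3]
      exact h.2
    · rintro ⟨s0, g1, g2, g3⟩
      have g4 : runB c s0 w < kN c := by
        have : ∀ (w : List ℕ), (∀ a ∈ w, a < lt c) → ∀ s < kN c, runB c s w < kN c := by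
          intro w
          induction w with
          | nil => intro _ s hs; exact hs
          | cons b w ih => intro hw s hs
                           exact ih (fun x hx => hw x (by simp [hx])) _ (hb s hs b (hw b (by simp)))
        exact this w (fun b hb => hw b (by simp [hb])) s0 g1
      refine ⟨runB c s0 w, List.mem_range.2 g4, ?_⟩
      rw [vec_getD, Bool.and_eq_true, Bool.and_eq_true, decide_eq_true_eq, decide_eq_true_eq]
      refine ⟨⟨g4, (h2 _ g4).2 ⟨s0, g1, g2, rfl⟩⟩, ?_⟩
      unfold runB at g3 ⊢
      rw [List.foldl_append] at g3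
      exact g3

/-- exactly one state of the first part -/
def single (c : Code) (u : List Bool) : Bool :=
  (List.range c.length).any fun s => u.getD s false &&
    (List.range c.length).all fun s' => !(u.getD s' false) || decide (s' = s)

/-- two pairs -/
def multi (c : Code) (u : List Bool) : Bool :=
  (List.range (c.length * c.length)).any fun s => u.getD (c.length + s) false &&
    (List.range (c.length * c.length)).any fun s' => u.getD (c.length + s') false &&
      decide (s' ≠ s)

/-- all states -/
def starts1 (c : Code) : List (List Bool) := [vec (kN c) fun s => decide (s < c.length)]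

/-- all states, and the pairs with first component `q` -/
def starts2 (c : Code) : List (List Bool) := (List.range c.length).map fun q =>
  vec (kN c) fun s => decide (s < c.length) || decide ((s - c.length) / c.length = q)

section aut

variable (M : Mealy)

theorem code_length : M.code.length = M.n + 1 := by simp [Mealy.code]

theorem lt_code : lt M.code = M.m := by
  unfold lt
  rw [List.getD_eq_getElem _ _ (by rw [code_length]; omega)]
  simp [Mealy.code]

theorem row_code (q : Fin (M.n + 1)) : M.code.getD q.val [] =
    (List.finRange M.m).map fun a => ((M.δ q a).val, (M.out q a).val) := by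
  rw [List.getD_eq_getElem _ _ (by rw [code_length]; exact q.2)]
  simp [Mealy.code]

theorem dN_code (q : Fin (M.n + 1)) (a : Fin M.m) : dN M.code q.val a.val = (M.δ q a).val := by
  unfold dN
  rw [row_code, List.getD_eq_getElem _ _ (by simp)]
  simp

theorem oN_code (q : Fin (M.n + 1)) (a : Fin M.m) : oN M.code q.val a.val = (M.out q a).val := by
  unfold oN
  rw [row_code, List.getD_eq_getElem _ _ (by simp)]
  simp

theorem bN_lt : ∀ s < kN M.code, ∀ a < lt M.code, bN M.code s a < kN M.code := by
  intro s hs a ha
  rw [lt_code] at ha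
  unfold kN at hs ⊢
  rw [code_length] at hs ⊢
  unfold bN
  rw [code_length]
  split_ifs with h
  · rw [dN_code M ⟨s, h⟩ ⟨a, ha⟩]
    have := (M.δ ⟨s, h⟩ ⟨a, ha⟩).2
    omega
  · set N := M.n + 1 with hN
    have hNpos : 0 < N := by omega
    have h1 : (s - N) / N < N := by
      rw [Nat.div_lt_iff_lt_mul hNpos]; omega
    have h2 : (s - N) % N < N := Nat.mod_lt _ hNpos
    rw [dN_code M ⟨_, h1⟩ ⟨a, ha⟩, oN_code M ⟨_, h1⟩ ⟨a, ha⟩, dN_code M ⟨_, h2⟩ _]
    have h3 := (M.δ ⟨_, h1⟩ ⟨a, ha⟩).2
    have h4 := (M.δ ⟨_, h2⟩ (M.out ⟨_, h1⟩ ⟨a, ha⟩)).2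
    have h5 : (M.δ ⟨_, h1⟩ ⟨a, ha⟩).val * N + (M.δ ⟨_, h2⟩ (M.out ⟨_, h1⟩ ⟨a, ha⟩)).val < N * N := by
      calc _ < (M.δ ⟨_, h1⟩ ⟨a, ha⟩).val * N + N := by omega
        _ = ((M.δ ⟨_, h1⟩ ⟨a, ha⟩).val + 1) * N := by ring
        _ ≤ N * N := Nat.mul_le_mul_right _ h3
    omega

theorem runB_fst (q : Fin (M.n + 1)) (w : List (Fin M.m)) :
    runB M.code q.val (w.map Fin.val) = (M.run q w).val := by
  induction w generalizing q with
  | nil => rfl
  | cons a w ih =>
    have e1 : runB M.code q.val ((a :: w).map Fin.val) =
        runB M.code (bN M.code q.val a.val) (w.map Fin.val) := rfl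
    have e2 : bN M.code q.val a.val = (M.δ q a).val := by
      unfold bN
      rw [if_pos (by rw [code_length]; exact q.2), dN_code]
    rw [e1, e2, ih]
    rfl

/-- the number of a pair -/
def pr (q t : Fin (M.n + 1)) : ℕ := M.n + 1 + (q.val * (M.n + 1) + t.val)

theorem pr_div (q t : Fin (M.n + 1)) : (pr M q t - (M.n + 1)) / (M.n + 1) = q.val := by
  unfold pr
  rw [Nat.add_sub_cancel_left, Nat.add_comm, Nat.add_mul_div_right _ _ (by omega),
    Nat.div_eq_of_lt t.2, Nat.zero_add]

theorem pr_mod (q t : Fin (M.n + 1)) : (pr M q t - (M.n + 1)) % (M.n + 1) = t.val := by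
  unfold pr
  rw [Nat.add_sub_cancel_left, Nat.add_comm, Nat.add_mul_mod_self_right,
    Nat.mod_eq_of_lt t.2]

theorem pr_lt (q t : Fin (M.n + 1)) : pr M q t < kN M.code := by
  unfold pr kN
  rw [code_length]
  have h5 : q.val * (M.n + 1) + t.val < (M.n + 1) * (M.n + 1) := by
    calc _ < q.val * (M.n + 1) + (M.n + 1) := by omega
      _ = (q.val + 1) * (M.n + 1) := by ring
      _ ≤ (M.n + 1) * (M.n + 1) := Nat.mul_le_mul_right _ q.2
  omega

theorem exists_pr {s : ℕ} (h : s < kN M.code) (h' : M.n + 1 ≤ s) :
    ∃ q t, s = pr M q t := by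
  unfold kN at h
  rw [code_length] at h
  refine ⟨⟨(s - (M.n + 1)) / (M.n + 1), ?_⟩, ⟨(s - (M.n + 1)) % (M.n + 1), ?_⟩, ?_⟩
  · rw [Nat.div_lt_iff_lt_mul (by omega)]; omega
  · exact Nat.mod_lt _ (by omega)
  · unfold pr
    have := Nat.div_add_mod (s - (M.n + 1)) (M.n + 1)
    have e : (s - (M.n + 1)) / (M.n + 1) * (M.n + 1) = (M.n + 1) * ((s - (M.n + 1)) / (M.n + 1)) :=
      Nat.mul_comm _ _
    simp only
    omega

theorem runB_pr (q t : Fin (M.n + 1)) (w : List (Fin M.m)) :
    runB M.code (pr M q t) (w.map Fin.val) = pr M (M.run q w) (M.run t (M.output q w)) := by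
  induction w generalizing q t with
  | nil => rfl
  | cons a w ih =>
    have e1 : runB M.code (pr M q t) ((a :: w).map Fin.val) =
        runB M.code (bN M.code (pr M q t) a.val) (w.map Fin.val) := rfl
    have e2 : bN M.code (pr M q t) a.val = pr M (M.δ q a) (M.δ t (M.out q a)) := by
      unfold bN
      rw [code_length, if_neg (by unfold pr; omega), pr_div, pr_mod, dN_code, oN_code, dN_code]
      rfl
    rw [e1, e2, ih]
    rfl

theorem pr_inj {q t q' t' : Fin (M.n + 1)} (h : pr M q t = pr M q' t') : q = q' ∧ t = t' := by
  have h1 := pr_div M q t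
  rw [h, pr_div] at h1
  have h2 := pr_mod M q t
  rw [h, pr_mod] at h2
  exact ⟨Fin.ext h1.symm, Fin.ext h2.symm⟩

theorem syn_iff' (u : List (Fin M.m)) : M.Syn u ↔ ∃ p, ∀ q, M.run q u = p := by
  unfold Mealy.Syn
  rw [Finset.card_eq_one]
  refine exists_congr fun p => ?_
  constructor
  · intro h q
    have : M.run q u ∈ Finset.univ.image fun q => M.run q u :=
      Finset.mem_image_of_mem _ (Finset.mem_univ _)
    rw [h, Finset.mem_singleton] at this
    exact this
  · intro h
    ext q
    rw [Finset.mem_image, Finset.mem_singleton]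
    constructor
    · rintro ⟨s, _, rfl⟩
      exact h s
    · rintro rfl
      exact ⟨0, Finset.mem_univ _, h 0⟩

theorem words {w : List ℕ} (hw : ∀ a ∈ w, a < lt M.code) : ∃ u : List (Fin M.m), u.map Fin.val = w := by
  rw [lt_code] at hw
  refine ⟨w.pmap (fun a ha => ⟨a, ha⟩) hw, ?_⟩
  rw [List.map_pmap]
  simp

theorem single_iff (P P' : ℕ → Bool) (u : List (Fin M.m)) (hP : ∀ s < M.n + 1, P s = true)
    (hP2 : ∀ s, M.n + 1 ≤ s → s < kN M.code → P s = true →
      ∀ w : List (Fin M.m), M.n + 1 ≤ runB M.code s (w.map Fin.val))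
    (h : ∀ s' < kN M.code, (P' s' = true ↔ ∃ s < kN M.code, P s = true ∧
      runB M.code s (u.map Fin.val) = s')) :
    single M.code (vec (kN M.code) P') = true ↔ M.Syn u := by
  have hk : ∀ s < M.n + 1, s < kN M.code := by
    intro s hs
    unfold kN
    rw [code_length]
    omega
  have hP' : ∀ s' < M.n + 1, (P' s' = true ↔ ∃ q : Fin (M.n + 1), (M.run q u).val = s') := by
    intro s' hs'
    rw [h s' (hk s' hs')]
    constructor
    · rintro ⟨s, hs1, hs2, hs3⟩
      by_cases hs : s < M.n + 1
      · refine ⟨⟨s, hs⟩, ?_⟩
        rw [← runB_fst]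
        exact hs3
      · have := hP2 s (by omega) hs1 hs2 u
        omega
    · rintro ⟨q, hq⟩
      refine ⟨q.val, hk _ q.2, hP _ q.2, ?_⟩
      rw [runB_fst]
      exact hq
  rw [syn_iff']
  unfold single
  rw [List.any_eq_true, code_length]
  constructor
  · rintro ⟨s, hs, h1⟩
    rw [List.mem_range] at hs
    rw [Bool.and_eq_true, List.all_eq_true] at h1
    refine ⟨⟨s, hs⟩, fun q => Fin.ext ?_⟩
    have h2 := h1.2 (M.run q u).val (List.mem_range.2 (M.run q u).2)
    have h3 : P' (M.run q u).val = true := (hP' _ (M.run q u).2).2 ⟨q, rfl⟩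
    rw [vec_getD, h3] at h2
    simpa [hk _ (M.run q u).2] using h2
  · rintro ⟨p, hp⟩
    refine ⟨p.val, List.mem_range.2 p.2, ?_⟩
    rw [Bool.and_eq_true, List.all_eq_true]
    constructor
    · rw [vec_getD, (hP' _ p.2).2 ⟨0, congrArg Fin.val (hp 0)⟩]
      simp [hk _ p.2]
    · intro s' hs'
      rw [List.mem_range] at hs'
      by_cases h4 : P' s' = true
      · obtain ⟨q, hq⟩ := (hP' s' hs').1 h4
        have : s' = p.val := by rw [← hq, hp q]
        simp [this]
      · rw [Bool.not_eq_true] at h4
        rw [vec_getD, h4]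
        simp

theorem multi_iff (q : Fin (M.n + 1)) (P P' : ℕ → Bool) (u : List (Fin M.m))
    (hP2 : ∀ s, M.n + 1 ≤ s → s < kN M.code → (P s = true ↔ ∃ t, s = pr M q t))
    (h : ∀ s' < kN M.code, (P' s' = true ↔ ∃ s < kN M.code, P s = true ∧
      runB M.code s (u.map Fin.val) = s')) :
    multi M.code (vec (kN M.code) P') = true ↔ ¬ M.Syn (M.output q u) := by
  have hk : ∀ s < (M.n + 1) * (M.n + 1), M.n + 1 + s < kN M.code := by
    intro s hs
    unfold kN
    rw [code_length]
    omega
  have hP' : ∀ s' < (M.n + 1) * (M.n + 1), (P' (M.n + 1 + s') = true ↔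
      ∃ t : Fin (M.n + 1), pr M (M.run q u) (M.run t (M.output q u)) = M.n + 1 + s') := by
    intro s' hs'
    rw [h _ (hk s' hs')]
    constructor
    · rintro ⟨s, hs1, hs2, hs3⟩
      by_cases hs : s < M.n + 1
      · have := runB_fst M ⟨s, hs⟩ u
        simp only at this
        rw [hs3] at this
        have h3 := (M.run ⟨s, hs⟩ u).2
        omega
      · obtain ⟨t, rfl⟩ := (hP2 s (by omega) hs1).1 hs2
        exact ⟨t, by rw [← runB_pr]; exact hs3⟩
    · rintro ⟨t, ht⟩
      refine ⟨pr M q t, pr_lt M q t, (hP2 _ (by unfold pr; omega) (pr_lt M q t)).2 ⟨t, rfl⟩, ?_⟩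
      rw [runB_pr]
      exact ht
  rw [syn_iff']
  unfold multi
  rw [List.any_eq_true, code_length]
  constructor
  · rintro ⟨s, hs, h1⟩ ⟨p, hp⟩
    rw [List.mem_range] at hs
    rw [Bool.and_eq_true, List.any_eq_true] at h1
    obtain ⟨h2, s', hs', h3⟩ := h1
    rw [List.mem_range] at hs'
    rw [Bool.and_eq_true, decide_eq_true_eq] at h3
    rw [vec_getD, Bool.and_eq_true] at h2
    have h3' := h3.1
    rw [vec_getD, Bool.and_eq_true] at h3'
    obtain ⟨t, ht⟩ := (hP' s hs).1 h2.2
    obtain ⟨t', ht'⟩ := (hP' s' hs').1 h3'.2
    rw [hp] at ht ht'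
    exact h3.2 (by omega)
  · intro hn
    have h1 : ∃ t, M.run t (M.output q u) ≠ M.run 0 (M.output q u) := by
      by_contra hc
      push Not at hc
      exact hn ⟨_, hc⟩
    obtain ⟨t, ht⟩ := h1
    have h5 : ∀ t : Fin (M.n + 1), pr M (M.run q u) t - (M.n + 1) < (M.n + 1) * (M.n + 1) := by
      intro t
      have h6 := pr_lt M (M.run q u) t
      unfold kN at h6
      rw [code_length] at h6
      have : M.n + 1 ≤ pr M (M.run q u) t := by unfold pr; omega
      omega
    have h7 : ∀ t : Fin (M.n + 1), M.n + 1 + (pr M (M.run q u) t - (M.n + 1)) =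
        pr M (M.run q u) t := by
      intro t
      have : M.n + 1 ≤ pr M (M.run q u) t := by unfold pr; omega
      omega
    refine ⟨pr M (M.run q u) (M.run 0 (M.output q u)) - (M.n + 1), List.mem_range.2 (h5 _), ?_⟩
    rw [Bool.and_eq_true, List.any_eq_true]
    constructor
    · rw [vec_getD, (hP' _ (h5 _)).2 ⟨0, (h7 _).symm⟩]
      simp [hk _ (h5 _)]
    · refine ⟨pr M (M.run q u) (M.run t (M.output q u)) - (M.n + 1), List.mem_range.2 (h5 _), ?_⟩
      rw [Bool.and_eq_true]
      constructor
      · rw [vec_getD, (hP' _ (h5 _)).2 ⟨t, (h7 _).symm⟩]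
        simp [hk _ (h5 _)]
      · rw [decide_eq_true_eq]
        intro he
        apply ht
        refine (pr_inj M (q := M.run q u) (q' := M.run q u) ?_).2
        have := h7 (M.run t (M.output q u))
        have := h7 (M.run 0 (M.output q u))
        omega

theorem exists_syn_iff : (∃ st ∈ starts1 M.code, ∃ w : List ℕ, (∀ a ∈ w, a < lt M.code) ∧
      single M.code (w.foldl (fun u a => stepv M.code a u) st) = true) ↔ ∃ u, M.Syn u := by
  have key : ∀ u : List (Fin M.m), single M.code ((u.map Fin.val).foldl
      (fun u a => stepv M.code a u) (vec (kN M.code) fun s => decide (s < M.code.length))) = true ↔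
      M.Syn u := by
    intro u
    obtain ⟨P', h1, h2⟩ := foldl_stepv M.code (bN_lt M) (fun s => decide (s < M.code.length))
      (u.map Fin.val) (by
        intro a ha
        obtain ⟨b, _, rfl⟩ := List.mem_map.1 ha
        rw [lt_code]
        exact b.2)
    rw [h1]
    refine single_iff M _ P' u ?_ ?_ h2
    · intro s hs
      simpa [code_length] using hs
    · intro s hs _ h3
      rw [decide_eq_true_eq, code_length] at h3
      omega
  constructor
  · rintro ⟨st, hst, w, hw, h⟩
    obtain ⟨u, rfl⟩ := words M hw
    unfold starts1 at hst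
    rw [List.mem_singleton] at hst
    subst hst
    exact ⟨u, (key u).1 h⟩
  · rintro ⟨u, hu⟩
    refine ⟨_, List.mem_singleton.2 rfl, u.map Fin.val, ?_, (key u).2 hu⟩
    intro a ha
    obtain ⟨b, _, rfl⟩ := List.mem_map.1 ha
    rw [lt_code]
    exact b.2

theorem exists_bad_iff : (∃ st ∈ starts2 M.code, ∃ w : List ℕ, (∀ a ∈ w, a < lt M.code) ∧
      (single M.code (w.foldl (fun u a => stepv M.code a u) st) &&
        multi M.code (w.foldl (fun u a => stepv M.code a u) st)) = true) ↔
      ∃ q u, M.Syn u ∧ ¬ M.Syn (M.output q u) := by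
  have key : ∀ (q : Fin (M.n + 1)) (u : List (Fin M.m)),
      (single M.code ((u.map Fin.val).foldl (fun u a => stepv M.code a u)
        (vec (kN M.code) fun s => decide (s < M.code.length) ||
          decide ((s - M.code.length) / M.code.length = q.val))) &&
      multi M.code ((u.map Fin.val).foldl (fun u a => stepv M.code a u)
        (vec (kN M.code) fun s => decide (s < M.code.length) ||
          decide ((s - M.code.length) / M.code.length = q.val)))) = true ↔
      M.Syn u ∧ ¬ M.Syn (M.output q u) := by
    intro q u
    obtain ⟨P', h1, h2⟩ := foldl_stepv M.code (bN_lt M) (fun s => decide (s < M.code.length) ||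
          decide ((s - M.code.length) / M.code.length = q.val))
      (u.map Fin.val) (by
        intro a ha
        obtain ⟨b, _, rfl⟩ := List.mem_map.1 ha
        rw [lt_code]
        exact b.2)
    rw [h1, Bool.and_eq_true]
    have hpq : ∀ s, M.n + 1 ≤ s → s < kN M.code →
        ((decide (s < M.code.length) ||
          decide ((s - M.code.length) / M.code.length = q.val)) = true ↔ ∃ t, s = pr M q t) := by
      intro s hs1 hs2
      rw [Bool.or_eq_true, decide_eq_true_eq, decide_eq_true_eq, code_length]
      constructor
      · rintro (h3 | h3)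
        · omega
        · obtain ⟨q', t, rfl⟩ := exists_pr M hs2 hs1
          rw [pr_div] at h3
          exact ⟨t, by rw [Fin.ext h3]⟩
      · rintro ⟨t, rfl⟩
        right
        exact pr_div M q t
    refine and_congr ?_ ?_
    · refine single_iff M _ P' u ?_ ?_ h2
      · intro s hs
        simp [code_length, hs]
      · intro s hs1 hs2 h3 w
        obtain ⟨t, rfl⟩ := (hpq s hs1 hs2).1 h3
        rw [runB_pr]
        unfold pr
        omega
    · exact multi_iff M q _ P' u hpq h2
  constructor
  · rintro ⟨st, hst, w, hw, h⟩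
    obtain ⟨u, rfl⟩ := words M hw
    unfold starts2 at hst
    rw [List.mem_map] at hst
    obtain ⟨q, hq, rfl⟩ := hst
    rw [List.mem_range, code_length] at hq
    exact ⟨⟨q, hq⟩, u, (key ⟨q, hq⟩ u).1 h⟩
  · rintro ⟨q, u, hu⟩
    refine ⟨_, List.mem_map.2 ⟨q.val, List.mem_range.2 (by rw [code_length]; exact q.2), rfl⟩,
      u.map Fin.val, ?_, (key q u).2 hu⟩
    intro a ha
    obtain ⟨b, _, rfl⟩ := List.mem_map.1 ha
    rw [lt_code]
    exact b.2

theorem okc_code : okc M.code = true := by
  unfold okc
  rw [Bool.and_eq_true, decide_eq_true_eq, List.all_eq_true, lt_code, code_length]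
  refine ⟨by omega, ?_⟩
  intro row hrow
  unfold Mealy.code at hrow
  rw [List.mem_map] at hrow
  obtain ⟨q, _, rfl⟩ := hrow
  rw [Bool.and_eq_true, decide_eq_true_eq, List.all_eq_true]
  refine ⟨by simp, ?_⟩
  intro x hx
  rw [List.mem_map] at hx
  obtain ⟨a, _, rfl⟩ := hx
  rw [Bool.and_eq_true, decide_eq_true_eq, decide_eq_true_eq]
  exact ⟨(M.δ q a).2, (M.out q a).2⟩

end aut

theorem exists_aut {d : Code} (h : okc d = true) : ∃ M : Mealy, M.code = d := by
  unfold okc at h
  simp only [Bool.and_eq_true, List.all_eq_true, decide_eq_true_eq] at h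
  obtain ⟨h0, h⟩ := h
  have hrow : ∀ q : Fin (d.length - 1 + 1), q.val < d.length := fun q => by have := q.2; omega
  refine ⟨⟨d.length - 1, lt d,
    fun q a => ⟨((d[q.val]'(hrow q))[a.val]'(by
      rw [(h _ (List.getElem_mem (hrow q))).1]; exact a.2)).1, ?_⟩,
    fun q a => ⟨((d[q.val]'(hrow q))[a.val]'(by
      rw [(h _ (List.getElem_mem (hrow q))).1]; exact a.2)).2, ?_⟩⟩, ?_⟩
  · have := ((h _ (List.getElem_mem (hrow q))).2 _ (List.getElem_mem (by
      rw [(h _ (List.getElem_mem (hrow q))).1]; exact a.2))).1
    omega
  · exact ((h _ (List.getElem_mem (hrow q))).2 _ (List.getElem_mem (by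
      rw [(h _ (List.getElem_mem (hrow q))).1]; exact a.2))).2
  · unfold Mealy.code
    apply List.ext_getElem
    · simp only [List.length_map, List.length_finRange]; omega
    · intro i h1 h2
      rw [List.getElem_map]
      apply List.ext_getElem
      · simp [(h _ (List.getElem_mem h2)).1]
      · intro j h3 h4
        rw [List.getElem_map]
        simp

/-- the code, or a bad code -/
def init (x : List Bool) : Code := (unbits Code x).getD []

theorem init_bits (M : Mealy) : init (bits M) = M.code := by
  unfold init
  have : bits M = bits M.code := rfl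
  rw [this, unbits_bits, Option.getD_some]

theorem exists_of_ok {x : List Bool} (h : okc (init x) = true) : ∃ M : Mealy, bits M = x ∧
    M.code = init x := by
  obtain ⟨M, hM⟩ := exists_aut h
  refine ⟨M, ?_, hM⟩
  have h3 : bits M = bits M.code := rfl
  rw [h3, hM]
  unfold init
  cases hx : unbits Code x with
  | none =>
    exfalso
    unfold init at h
    rw [hx, Option.getD_none] at h
    exact absurd h (by decide)
  | some c =>
    rw [Option.getD_some]
    exact bits_of_unbits hx

section poly

variable {α : Type} [TEnc α]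

theorem uPoly_k : UPoly (fun c : Code => kN c) := by
  have h := UPoly.length (l := fun c : Code => c) NPC.Poly.id
  exact UPoly.add h (UPoly.mul h h)

theorem poly_vec {K : α → ℕ} {P : α → ℕ → Bool} (hK : UPoly K)
    (hP : NPC.Poly (fun p : α × ℕ => P p.1 p.2)) : NPC.Poly (fun a => vec (K a) (P a)) :=
  NPC.Poly.map (F := P) hK.range hP

theorem poly_bN : NPC.Poly (fun p : Code × ℕ × ℕ => bN p.1 p.2.1 p.2.2) := by
  unfold bN dN oN
  fun_prop

theorem poly_stepv : NPC.Poly (fun p : Code × ℕ × List Bool => stepv p.1 p.2.1 p.2.2) := by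
  unfold stepv
  have h1 : UPoly (fun p : Code × ℕ × List Bool => kN p.1) := uPoly_k.comp (by fun_prop)
  refine NPC.Poly.map (F := fun (p : Code × ℕ × List Bool) s' => (List.range (kN p.1)).any fun s =>
    p.2.2.getD s false && decide (bN p.1 s p.2.1 = s')) h1.range ?_
  refine NPC.Poly.any (l := fun p : (Code × ℕ × List Bool) × ℕ => List.range (kN p.1.1))
    (p := fun p s => p.1.2.2.getD s false && decide (bN p.1.1 s p.1.2.1 = p.2))
    (h1.comp (f := fun p : (Code × ℕ × List Bool) × ℕ => p.1) (by fun_prop)).range ?_
  have h2 : NPC.Poly (fun p : ((Code × ℕ × List Bool) × ℕ) × ℕ => bN p.1.1.1 p.2 p.1.1.2.1) :=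
    poly_bN.comp (f := fun p : ((Code × ℕ × List Bool) × ℕ) × ℕ => (p.1.1.1, p.2, p.1.1.2.1))
      (by fun_prop)
  exact NPC.Poly.and (by fun_prop) (NPC.Poly.decide_eq h2 (by fun_prop))

theorem uPoly_lt : UPoly (fun c : Code => lt c) := UPoly.length (by fun_prop)

theorem poly_single : NPC.Poly (fun p : Code × List Bool => single p.1 p.2) := by
  unfold single
  have h1 : UPoly (fun p : Code × List Bool => p.1.length) := UPoly.length (by fun_prop)
  refine NPC.Poly.any (l := fun p : Code × List Bool => List.range p.1.length)
    (p := fun p s => p.2.getD s false && (List.range p.1.length).all fun s' =>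
      !(p.2.getD s' false) || decide (s' = s)) h1.range ?_
  refine NPC.Poly.and (by fun_prop) ?_
  refine NPC.Poly.all (l := fun p : (Code × List Bool) × ℕ => List.range p.1.1.length)
    (p := fun p s' => !(p.1.2.getD s' false) || decide (s' = p.2))
    (h1.comp (f := fun p : (Code × List Bool) × ℕ => p.1) (by fun_prop)).range ?_
  fun_prop

theorem poly_multi : NPC.Poly (fun p : Code × List Bool => multi p.1 p.2) := by
  unfold multi
  have h0 : UPoly (fun p : Code × List Bool => p.1.length) := UPoly.length (by fun_prop)
  have h1 : UPoly (fun p : Code × List Bool => p.1.length * p.1.length) := UPoly.mul h0 h0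
  refine NPC.Poly.any (l := fun p : Code × List Bool => List.range (p.1.length * p.1.length))
    (p := fun p s => p.2.getD (p.1.length + s) false &&
      (List.range (p.1.length * p.1.length)).any fun s' =>
      p.2.getD (p.1.length + s') false && decide (s' ≠ s)) h1.range ?_
  refine NPC.Poly.and (by fun_prop) ?_
  refine NPC.Poly.any (l := fun p : (Code × List Bool) × ℕ => List.range (p.1.1.length * p.1.1.length))
    (p := fun p s' => p.1.2.getD (p.1.1.length + s') false && decide (s' ≠ p.2))
    (h1.comp (f := fun p : (Code × List Bool) × ℕ => p.1) (by fun_prop)).range ?_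
  fun_prop

theorem poly_okc : NPC.Poly okc := by
  unfold okc
  have h1 : NPC.Poly lt := uPoly_lt.toPoly
  refine NPC.Poly.and (by fun_prop) ?_
  refine NPC.Poly.all (l := fun c : Code => c) (p := fun c row => decide (row.length = lt c) &&
    row.all fun x => decide (x.1 < c.length) && decide (x.2 < lt c)) (by fun_prop) ?_
  refine NPC.Poly.and (by fun_prop) ?_
  refine NPC.Poly.all (l := fun p : Code × List (ℕ × ℕ) => p.2)
    (p := fun p x => decide (x.1 < p.1.length) && decide (x.2 < lt p.1)) (by fun_prop) ?_
  fun_prop

theorem poly_init : NPC.Poly init := NPC.Poly.optGetD poly_unbits (NPC.Poly.const _)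

theorem poly_starts1 : NPC.Poly starts1 := by
  unfold starts1
  have h : NPC.Poly (fun c : Code => vec (kN c) fun s => decide (s < c.length)) :=
    poly_vec uPoly_k (P := fun c s => decide (s < c.length)) (by fun_prop)
  fun_prop

theorem poly_starts2 : NPC.Poly starts2 := by
  unfold starts2
  have h1 : UPoly (fun p : Code => p.length) := UPoly.length (by fun_prop)
  refine NPC.Poly.map (l := fun c : Code => List.range c.length)
    (F := fun c q => vec (kN c) fun s => decide (s < c.length) ||
      decide ((s - c.length) / c.length = q)) h1.range ?_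
  exact poly_vec (K := fun p : Code × ℕ => kN p.1) (uPoly_k.comp (by fun_prop))
    (P := fun p s => decide (s < p.1.length) || decide ((s - p.1.length) / p.1.length = p.2))
    (by fun_prop)

theorem ev_of {starts : Code → List (List Bool)} {acc : Code → List Bool → Bool}
    (hs : NPC.Poly starts) (hacc : NPC.Poly (fun p : Code × List Bool => acc p.1 p.2))
    (hsl : ∀ c, ∀ st ∈ starts c, st.length = kN c)
    (h0 : ∀ c, acc c (List.replicate (kN c) false) = false) {L : Set (List Bool)}
    (hL : ∀ x, x ∈ L ↔ okc (init x) = true ∧ ∃ st ∈ starts (init x), ∃ w : List ℕ,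
      (∀ a ∈ w, a < lt (init x)) ∧
      acc (init x) (w.foldl (fun u a => stepv (init x) a u) st) = true) : EvL L := by
  refine EvL.of_reach poly_init (w := fun c => kN c + 1) (UPoly.add uPoly_k (UPoly.const 1))
    (good := okc) poly_okc (R := Rl starts acc) ?_
    (s := fun c => false :: List.replicate (kN c) false)
    (t := fun c => true :: List.replicate (kN c) false) ?_ ?_ (by simp) ?_ ?_
  · unfold Rl
    have hr : NPC.Poly (fun c : Code => List.replicate (kN c) false) :=
      poly_replicate uPoly_k false
    have hr2 : NPC.Poly (fun p : Code × List Bool × List Bool => List.replicate (kN p.1) false) :=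
      hr.comp (f := fun p : Code × List Bool × List Bool => p.1) (by fun_prop)
    have g1 : NPC.Poly (fun p : Code × List Bool × List Bool =>
        (starts p.1).any fun st => decide (p.2.2 = false :: st)) := by
      refine NPC.Poly.any (l := fun p : Code × List Bool × List Bool => starts p.1)
        (p := fun p st => decide (p.2.2 = false :: st)) (by fun_prop) ?_
      fun_prop
    have g2 : NPC.Poly (fun p : Code × List Bool × List Bool =>
        (List.range (lt p.1)).any fun a => decide (p.2.2 = false :: stepv p.1 a p.2.1.tail)) := by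
      refine NPC.Poly.any (l := fun p : Code × List Bool × List Bool => List.range (lt p.1))
        (p := fun p a => decide (p.2.2 = false :: stepv p.1 a p.2.1.tail))
        (uPoly_lt.comp (f := fun p : Code × List Bool × List Bool => p.1) (by fun_prop)).range ?_
      have g3 : NPC.Poly (fun p : (Code × List Bool × List Bool) × ℕ =>
          stepv p.1.1 p.2 p.1.2.1.tail) :=
        poly_stepv.comp (f := fun p : (Code × List Bool × List Bool) × ℕ =>
          (p.1.1, p.2, p.1.2.1.tail)) (by fun_prop)
      exact NPC.Poly.decide_eq (by fun_prop) (NPC.Poly.cons (NPC.Poly.const false) g3)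
    have g4 : NPC.Poly (fun p : Code × List Bool × List Bool => acc p.1 p.2.1.tail) :=
      hacc.comp (f := fun p : Code × List Bool × List Bool => (p.1, p.2.1.tail)) (by fun_prop)
    have g5 : NPC.Poly (fun p : Code × List Bool × List Bool =>
        decide (p.2.1.tail = List.replicate (kN p.1) false)) :=
      NPC.Poly.decide_eq (by fun_prop) hr2
    have g6 : NPC.Poly (fun p : Code × List Bool × List Bool =>
        decide (p.2.2 = true :: List.replicate (kN p.1) false)) :=
      NPC.Poly.decide_eq (by fun_prop) (NPC.Poly.cons (NPC.Poly.const true) hr2)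
    refine NPC.Poly.and ?_ (NPC.Poly.or (NPC.Poly.and g5 g1) (NPC.Poly.or g2 (NPC.Poly.and g4 g6)))
    fun_prop
  · exact NPC.Poly.cons (NPC.Poly.const false) (poly_replicate uPoly_k false)
  · exact NPC.Poly.cons (NPC.Poly.const true) (poly_replicate uPoly_k false)
  · intro c u v _ h
    unfold Rl at h
    simp only [Bool.and_eq_true, Bool.or_eq_true, Bool.not_eq_true', decide_eq_true_eq,
      List.any_eq_true, List.mem_range] at h
    rcases h.2 with ⟨_, st, hst, rfl⟩ | ⟨a, _, rfl⟩ | ⟨_, rfl⟩
    · rw [List.length_cons, hsl c st hst]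
    · simp [stepv]
    · simp
  · intro x
    rw [hL, reach_iff (h0 _)]

end poly

theorem single_zero (c : Code) : single c (List.replicate (kN c) false) = false := by
  rw [← Bool.not_eq_true]
  intro h
  unfold single at h
  rw [List.any_eq_true] at h
  obtain ⟨s, _, h⟩ := h
  rw [Bool.and_eq_true] at h
  have h3 := h.1
  rw [List.getD_eq_getElem?_getD] at h3
  rcases Nat.lt_or_ge s (kN c) with h | h
  · rw [List.getElem?_eq_getElem (by simpa using h)] at h3
    simp at h3
  · rw [List.getElem?_eq_none (by simpa using h)] at h3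
    simp at h3

/-- RESET is in `PSPACE`. -/
theorem member : InPSPACE (lang Reset) := by
  have hA : EvL {x | ∃ M : Mealy, bits M = x ∧ ∃ u, M.Syn u} := by
    refine ev_of (starts := starts1) (acc := single) poly_starts1 poly_single ?_ single_zero ?_
    · intro c st hst
      unfold starts1 at hst
      rw [List.mem_singleton] at hst
      subst hst
      simp [vec]
    · intro x
      constructor
      · rintro ⟨M, rfl, h⟩
        rw [init_bits]
        exact ⟨okc_code M, (exists_syn_iff M).2 h⟩
      · rintro ⟨h1, h2⟩
        obtain ⟨M, hM1, hM2⟩ := exists_of_ok h1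
        rw [← hM2] at h2
        exact ⟨M, hM1, (exists_syn_iff M).1 h2⟩
  have hB : EvL {x | ∃ M : Mealy, bits M = x ∧ ∃ q u, M.Syn u ∧ ¬ M.Syn (M.output q u)} := by
    refine ev_of (starts := starts2) (acc := fun c u => single c u && multi c u) poly_starts2
      (NPC.Poly.and poly_single poly_multi) ?_ ?_ ?_
    · intro c st hst
      unfold starts2 at hst
      rw [List.mem_map] at hst
      obtain ⟨q, _, rfl⟩ := hst
      simp [vec]
    · intro c
      rw [single_zero, Bool.false_and]
    · intro x
      constructor
      · rintro ⟨M, rfl, h⟩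
        rw [init_bits]
        exact ⟨okc_code M, (exists_bad_iff M).2 h⟩
      · rintro ⟨h1, h2⟩
        obtain ⟨M, hM1, hM2⟩ := exists_of_ok h1
        rw [← hM2] at h2
        exact ⟨M, hM1, (exists_bad_iff M).1 h2⟩
  refine ((hA.inter hB.compl).congr fun x => ?_).inPSPACE
  unfold lang
  constructor
  · rintro ⟨⟨M, rfl, h1⟩, h2⟩
    refine ⟨M, rfl, h1, fun q u hu => ?_⟩
    by_contra hc
    exact h2 ⟨M, rfl, q, u, hu, hc⟩
  · rintro ⟨M, rfl, h1, h2⟩
    refine ⟨⟨M, rfl, h1⟩, ?_⟩
    rintro ⟨M', h3, q, u, h4, h5⟩
    have : M' = M := TEnc.inj (T.enc_injective h3)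
    subst this
    exact h5 (h2 q u h4)

end Pool.Agent.X245.RM
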