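import Pool.Agent.NPC.Defs

/-!
# Reset Mealy automata: the decision problem
-/

namespace Pool.Agent.X245.RM

open Pool.Agent.NPC

set_option autoImplicit false

/-- A Mealy automaton with the (non-empty) state set `Fin (n + 1)` and the alphabet `Fin m`. -/
structure Mealy where
  /-- one less than the number of states -/
  n : ℕ
  /-- the number of letters -/
  m : ℕ
  /-- the transition map -/
  δ : Fin (n + 1) → Fin m → Fin (n + 1)
  /-- the output map -/
  out : Fin (n + 1) → Fin m → Fin m

/-- `q · u`, the state reached from `q` by the word `u`. -/
def Mealy.run (M : Mealy) (q : Fin (M.n + 1)) (u : List (Fin M.m)) : Fin (M.n + 1) := u.foldl M.δ q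

/-- `q ∘ u`, the word put out on reading the word `u` from the state `q`. -/
def Mealy.output (M : Mealy) : Fin (M.n + 1) → List (Fin M.m) → List (Fin M.m)
  | _, [] => []
  | q, a :: u => M.out q a :: M.output (M.δ q a) u

/-- The word `u` is synchronizing: `|Q · u| = 1`. -/
def Mealy.Syn (M : Mealy) (u : List (Fin M.m)) : Prop :=
  (Finset.univ.image fun q => M.run q u).card = 1

/-- The automaton is reset: it is synchronizing, and every state turns synchronizing words into
synchronizing words. -/
def Reset (M : Mealy) : Prop :=
  (∃ u, M.Syn u) ∧ ∀ q u, M.Syn u → M.Syn (M.output q u)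

/-- An automaton is encoded by its table: one row for each state `q`, which lists the pairs
`(q · a, q ∘ a)` for the letters `a`. -/
def Mealy.code (M : Mealy) : List (List (ℕ × ℕ)) :=
  (List.finRange (M.n + 1)).map fun q => (List.finRange M.m).map fun a =>
    ((M.δ q a).val, (M.out q a).val)

theorem Mealy.code_injective : Function.Injective Mealy.code := by
  rintro ⟨n, m, δ, o⟩ ⟨n', m', δ', o'⟩ h
  simp only [Mealy.code] at h
  have hl := congrArg List.length h
  simp only [List.length_map, List.length_finRange, Nat.add_right_cancel_iff] at hl
  subst hl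
  have h0 := (List.map_inj_left.1 h) 0 (List.mem_finRange 0)
  have hm := congrArg List.length h0
  simp only [List.length_map, List.length_finRange] at hm
  subst hm
  have h1 : ∀ q a, (δ q a).val = (δ' q a).val ∧ (o q a).val = (o' q a).val := by
    intro q a
    have h3 := (List.map_inj_left.1 h) q (List.mem_finRange q)
    have h4 := (List.map_inj_left.1 h3) a (List.mem_finRange a)
    exact Prod.mk.injEq _ _ _ _ ▸ h4
  have e1 : δ = δ' := by
    funext q a
    exact Fin.ext (h1 q a).1
  have e2 : o = o' := by
    funext q a
    exact Fin.ext (h1 q a).2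
  rw [e1, e2]

instance : TEnc Mealy := ⟨fun M => toT M.code, fun _ _ h => Mealy.code_injective (TEnc.inj h)⟩

end Pool.Agent.X245.RM
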