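import Pool.Agent.X245.RM.Defs
import Pool.Agent.X245.Ev
import Pool.Agent.H623R2.PS.TM

/-!
# Rule systems reduce to the complement of RESET
-/

namespace Pool.Agent.X245.RM

open Pool.Agent.NPC Pool.Agent.H623R2.PS

set_option autoImplicit false

/-- number of states minus one -/
def ns (S : RS) : ℕ := 1 + S.2.1.length * (S.1 + 1)

/-- the state of the token `t` with value `v` -/
def sv (S : RS) (t v : ℕ) : ℕ := 2 + (t * (S.1 + 1) + v)

/-- the token of a state -/
def tk (S : RS) (s : ℕ) : ℕ := (s - 2) / (S.1 + 1)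

/-- the value of a state -/
def vl (S : RS) (s : ℕ) : ℕ := (s - 2) % (S.1 + 1)

/-- The transition function. Letters: `0` (identity), `1` (reset), `2` (init), `3` (exit),
`4 + i` (rule `i`). States: `0` (sink), `1` (dummy), `sv t v`. -/
def dl (S : RS) (s a : ℕ) : ℕ :=
  if s = 0 then 0 else if a = 1 then 0 else if a = 0 then s else
    if s = 1 then (if a = 3 then 0 else 1) else
      if a = 2 then sv S (tk S s) (min (S.2.1.getD (tk S s) 0) S.1) else
        if a = 3 then (if okf S.1 S.2.2.2 (tk S s) (vl S s) = true then 0 else s) else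
          sv S (tk S s) (min (tok S.1 (S.2.2.1.getD (a - 4) []) (tk S s) (vl S s)) S.1)

/-- The output function. -/
def ot (S : RS) (s a : ℕ) : ℕ :=
  if s = 0 then 1 else if a = 1 then 1 else
    if s = 1 then 0 else
      if a = 3 then (if okf S.1 S.2.2.2 (tk S s) (vl S s) = true then 0 else 1) else 0

/-- The automaton. -/
def aut (S : RS) : Mealy where
  n := ns S
  m := 4 + S.2.2.1.length
  δ := fun q a => ⟨if dl S q.val a.val < ns S + 1 then dl S q.val a.val else 0, by
    split_ifs with h
    · exact h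
    · omega⟩
  out := fun q a => ⟨ot S q.val a.val, by
    unfold ot
    split_ifs <;> omega⟩

variable {S : RS}

theorem sv_lt {t v : ℕ} (ht : t < S.2.1.length) (hv : v ≤ S.1) : sv S t v < ns S + 1 := by
  unfold sv ns
  have : (t + 1) * (S.1 + 1) ≤ S.2.1.length * (S.1 + 1) := Nat.mul_le_mul_right _ ht
  have : (t + 1) * (S.1 + 1) = t * (S.1 + 1) + (S.1 + 1) := by ring
  omega

theorem exists_sv {s : ℕ} (h : s < ns S + 1) (h' : 2 ≤ s) :
    ∃ t v, t < S.2.1.length ∧ v ≤ S.1 ∧ s = sv S t v := by
  refine ⟨(s - 2) / (S.1 + 1), (s - 2) % (S.1 + 1), ?_, ?_, ?_⟩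
  · unfold ns at h
    rw [Nat.div_lt_iff_lt_mul (by omega)]
    omega
  · have := Nat.mod_lt (s - 2) (show 0 < S.1 + 1 by omega)
    omega
  · unfold sv
    have := Nat.div_add_mod (s - 2) (S.1 + 1)
    have e : (s - 2) / (S.1 + 1) * (S.1 + 1) = (S.1 + 1) * ((s - 2) / (S.1 + 1)) :=
      Nat.mul_comm _ _
    omega

theorem tk_sv {t v : ℕ} (hv : v ≤ S.1) : tk S (sv S t v) = t := by
  unfold tk sv
  rw [Nat.add_sub_cancel_left, Nat.add_comm, Nat.add_mul_div_right _ _ (by omega),
    Nat.div_eq_of_lt (by omega), Nat.zero_add]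

theorem vl_sv {t v : ℕ} (hv : v ≤ S.1) : vl S (sv S t v) = v := by
  unfold vl sv
  rw [Nat.add_sub_cancel_left, Nat.add_comm, Nat.add_mul_mod_self_right,
    Nat.mod_eq_of_lt (by omega)]

theorem sv_ne {t v : ℕ} : sv S t v ≠ 0 ∧ sv S t v ≠ 1 := by
  unfold sv; omega

theorem dl_zero (a : ℕ) : dl S 0 a = 0 := by unfold dl; rw [if_pos rfl]

theorem dl_one (s : ℕ) : dl S s 1 = 0 := by
  unfold dl
  split_ifs <;> simp_all

theorem dl_id (s : ℕ) : dl S s 0 = s := by
  unfold dl
  split_ifs <;> simp_all

theorem dl_dummy {a : ℕ} (h1 : a ≠ 1) (h3 : a ≠ 3) : dl S 1 a = 1 := by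
  unfold dl
  simp [h1, h3]

theorem dl_dummy3 : dl S 1 3 = 0 := by
  unfold dl
  simp

theorem dl_init {t v : ℕ} (hv : v ≤ S.1) :
    dl S (sv S t v) 2 = sv S t (min (S.2.1.getD t 0) S.1) := by
  unfold dl
  have := sv_ne (S := S) (t := t) (v := v)
  rw [if_neg this.1, if_neg (by omega), if_neg (by omega), if_neg this.2, if_pos rfl, tk_sv hv]

theorem dl_exit {t v : ℕ} (hv : v ≤ S.1) :
    dl S (sv S t v) 3 = if okf S.1 S.2.2.2 t v = true then 0 else sv S t v := by
  unfold dl
  have := sv_ne (S := S) (t := t) (v := v)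
  rw [if_neg this.1, if_neg (by omega), if_neg (by omega), if_neg this.2, if_neg (by omega),
    if_pos rfl, tk_sv hv, vl_sv hv]

theorem dl_rule {t v i : ℕ} (hv : v ≤ S.1) :
    dl S (sv S t v) (4 + i) = sv S t (min (tok S.1 (S.2.2.1.getD i []) t v) S.1) := by
  unfold dl
  have := sv_ne (S := S) (t := t) (v := v)
  rw [if_neg this.1, if_neg (by omega), if_neg (by omega), if_neg this.2, if_neg (by omega),
    if_neg (by omega), tk_sv hv, vl_sv hv, Nat.add_sub_cancel_left]

theorem dl_lt {s a : ℕ} (hs : s < ns S + 1) : dl S s a < ns S + 1 := by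
  by_cases h0 : s = 0
  · subst h0; rw [dl_zero]; exact hs
  by_cases h1 : s = 1
  · subst h1
    unfold dl
    split_ifs <;> omega
  obtain ⟨t, v, ht, hv, rfl⟩ := exists_sv hs (by omega)
  by_cases a1 : a = 1
  · subst a1; rw [dl_one]; omega
  by_cases a0 : a = 0
  · subst a0; rw [dl_id]; exact hs
  by_cases a2 : a = 2
  · subst a2; rw [dl_init hv]; exact sv_lt ht (min_le_right _ _)
  by_cases a3 : a = 3
  · subst a3; rw [dl_exit hv]; split_ifs
    · omega
    · exact hs
  · obtain ⟨i, rfl⟩ : ∃ i, a = 4 + i := ⟨a - 4, by omega⟩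
    rw [dl_rule hv]; exact sv_lt ht (min_le_right _ _)

/-- running on numbers -/
def runN (S : RS) (s : ℕ) (w : List ℕ) : ℕ := w.foldl (dl S) s

/-- the output on numbers -/
def outN (S : RS) : ℕ → List ℕ → List ℕ
  | _, [] => []
  | s, a :: w => ot S s a :: outN S (dl S s a) w

theorem δ_val (q : Fin ((aut S).n + 1)) (a : Fin (aut S).m) :
    ((aut S).δ q a).val = dl S q.val a.val := by
  have h1 : dl S q.val a.val < ns S + 1 := dl_lt q.2
  change (if dl S q.val a.val < ns S + 1 then dl S q.val a.val else 0) = _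
  rw [if_pos h1]

theorem out_val (q : Fin ((aut S).n + 1)) (a : Fin (aut S).m) :
    ((aut S).out q a).val = ot S q.val a.val := rfl

theorem run_val (q : Fin ((aut S).n + 1)) (u : List (Fin (aut S).m)) :
    ((aut S).run q u).val = runN S q.val (u.map Fin.val) := by
  induction u generalizing q with
  | nil => rfl
  | cons a u ih =>
    have : (aut S).run q (a :: u) = (aut S).run ((aut S).δ q a) u := rfl
    rw [this, ih, δ_val]
    rfl

theorem output_val (q : Fin ((aut S).n + 1)) (u : List (Fin (aut S).m)) :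
    ((aut S).output q u).map Fin.val = outN S q.val (u.map Fin.val) := by
  induction u generalizing q with
  | nil => rfl
  | cons a u ih =>
    rw [Mealy.output, List.map_cons, ih, δ_val, out_val]
    rfl

theorem runN_append (s : ℕ) (u v : List ℕ) : runN S s (u ++ v) = runN S (runN S s u) v := by
  unfold runN
  rw [List.foldl_append]

theorem runN_zero (w : List ℕ) : runN S 0 w = 0 := by
  induction w with
  | nil => rfl
  | cons a w ih =>
    have : runN S 0 (a :: w) = runN S (dl S 0 a) w := rfl
    rw [this, dl_zero, ih]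

/-- a word is synchronizing iff all states go to the sink, when the sink exists -/
theorem syn_iff (u : List (Fin (aut S).m)) :
    (aut S).Syn u ↔ ∀ s < ns S + 1, runN S s (u.map Fin.val) = 0 := by
  unfold Mealy.Syn
  rw [Finset.card_eq_one]
  have h0 : ((aut S).run ⟨0, by omega⟩ u) = ⟨0, by omega⟩ := by
    apply Fin.ext
    rw [run_val, runN_zero]
  constructor
  · rintro ⟨p, hp⟩ s hs
    have h1 : (aut S).run ⟨s, hs⟩ u ∈ Finset.univ.image fun q => (aut S).run q u :=
      Finset.mem_image_of_mem _ (Finset.mem_univ _)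
    have h2 : (aut S).run ⟨0, by omega⟩ u ∈ Finset.univ.image fun q => (aut S).run q u :=
      Finset.mem_image_of_mem _ (Finset.mem_univ _)
    rw [hp, Finset.mem_singleton] at h1 h2
    rw [h0] at h2
    rw [← h2] at h1
    have h3 := congrArg Fin.val h1
    rw [run_val] at h3
    exact h3
  · intro h
    refine ⟨⟨0, by omega⟩, ?_⟩
    ext q
    rw [Finset.mem_image, Finset.mem_singleton]
    constructor
    · rintro ⟨s, _, rfl⟩
      apply Fin.ext
      rw [run_val]
      exact h s.val s.2
    · rintro rfl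
      exact ⟨⟨0, by omega⟩, Finset.mem_univ _, h0⟩

theorem syn_of_one {u : List (Fin (aut S).m)} (h : 1 ∈ u.map Fin.val) : (aut S).Syn u := by
  rw [syn_iff]
  intro s _
  obtain ⟨v, w, hvw⟩ := List.append_of_mem h
  rw [hvw, runN_append]
  have : runN S (runN S s v) (1 :: w) = runN S (dl S (runN S s v) 1) w := rfl
  rw [this, dl_one, runN_zero]

theorem runN_id (s : ℕ) (u : List ℕ) (h : ∀ a ∈ u, a = 0) : runN S s u = s := by
  induction u generalizing s with
  | nil => rfl
  | cons a u ih =>
    have h1 : a = 0 := h a (by simp)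
    have : runN S s (a :: u) = runN S (dl S s a) u := rfl
    rw [this, h1, dl_id, ih _ (fun b hb => h b (List.mem_cons_of_mem _ hb))]

theorem outN_01 (s : ℕ) (u : List ℕ) : ∀ a ∈ outN S s u, a = 0 ∨ a = 1 := by
  induction u generalizing s with
  | nil => intro a ha; cases ha
  | cons b u ih =>
    intro a ha
    rw [outN, List.mem_cons] at ha
    rcases ha with rfl | ha
    · unfold ot
      split_ifs <;> simp
    · exact ih _ a ha

/-- outputs are synchronizing iff they contain the letter `1` -/
theorem syn_output_iff (q : Fin ((aut S).n + 1)) (u : List (Fin (aut S).m)) :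
    (aut S).Syn ((aut S).output q u) ↔ 1 ∈ outN S q.val (u.map Fin.val) := by
  rw [← output_val]
  constructor
  · intro h
    by_contra h1
    rw [syn_iff] at h
    have h2 := h 1 (by unfold ns; omega)
    rw [runN_id] at h2
    · omega
    · intro a ha
      have h3 := ha
      rw [output_val] at h3
      rcases outN_01 _ _ a h3 with h4 | h4
      · exact h4
      · exact absurd (h4 ▸ ha) h1
  · exact syn_of_one

theorem dl_nz {s a : ℕ} (hs : s ≠ 0) (h1 : a ≠ 1) (h3 : a ≠ 3) (hlt : s < ns S + 1) :
    dl S s a ≠ 0 ∧ ot S s a = 0 := by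
  constructor
  · by_cases a0 : a = 0
    · subst a0; rw [dl_id]; exact hs
    by_cases s1 : s = 1
    · subst s1; rw [dl_dummy h1 h3]; omega
    obtain ⟨t, v, ht, hv, rfl⟩ := exists_sv hlt (by omega)
    by_cases a2 : a = 2
    · subst a2; rw [dl_init hv]; exact sv_ne.1
    · obtain ⟨i, rfl⟩ : ∃ i, a = 4 + i := ⟨a - 4, by omega⟩
      rw [dl_rule hv]; exact sv_ne.1
  · unfold ot
    rw [if_neg hs, if_neg h1, if_neg h3]
    split_ifs <;> rfl

theorem dl_three {s : ℕ} (hs : s ≠ 0) (h : ot S s 3 ≠ 1) : dl S s 3 = 0 := by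
  by_cases s1 : s = 1
  · subst s1; exact dl_dummy3
  · unfold ot at h
    rw [if_neg hs, if_neg (by omega), if_neg s1, if_pos rfl] at h
    split_ifs at h with h2
    · unfold dl
      rw [if_neg hs, if_neg (by omega), if_neg (by omega), if_neg s1, if_neg (by omega),
        if_pos rfl, if_pos h2]
    · exact absurd rfl h

/-- a tracker without output `1` reaches the sink only by a final exit letter -/
theorem track {s : ℕ} (hs : s ≠ 0) (hlt : s < ns S + 1) (u : List ℕ) (h1 : 1 ∉ outN S s u)
    (h2 : runN S s u = 0) : ∃ v, u = v ++ [3] ∧ ∀ a ∈ v, a ≠ 1 ∧ a ≠ 3 := by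
  induction u generalizing s with
  | nil => exact absurd h2 hs
  | cons a u ih =>
    rw [outN, List.mem_cons, not_or] at h1
    have e : runN S s (a :: u) = runN S (dl S s a) u := rfl
    rw [e] at h2
    have a1 : a ≠ 1 := by
      rintro rfl
      apply h1.1
      unfold ot
      split_ifs <;> simp_all
    by_cases a3 : a = 3
    · subst a3
      have h4 := dl_three hs (fun h => h1.1 h.symm)
      rw [h4] at h1
      rcases u with _ | ⟨b, u⟩
      · exact ⟨[], rfl, by simp⟩
      · exfalso
        apply h1.2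
        rw [outN, List.mem_cons]
        left
        unfold ot
        rw [if_pos rfl]
    · have h5 := dl_nz hs a1 a3 hlt
      obtain ⟨v, rfl, hv⟩ := ih h5.1 (dl_lt hlt) h1.2 h2
      refine ⟨a :: v, rfl, ?_⟩
      intro b hb
      rcases List.mem_cons.1 hb with rfl | hb
      · exact ⟨a1, a3⟩
      · exact hv b hb

/-- the value of the token `t` after the letters `v` -/
def tval (S : RS) (t : ℕ) (v : List ℕ) : ℕ :=
  v.foldl (fun x a => if a = 0 then x else if a = 2 then S.2.1.getD t 0 else
    tok S.1 (S.2.2.1.getD (a - 4) []) t x) (S.2.1.getD t 0)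

theorem getD_le (hS : RSwf S) (t : ℕ) : S.2.1.getD t 0 ≤ S.1 := by
  by_cases ht : t < S.2.1.length
  · rw [List.getD_eq_getElem _ _ ht]
    exact (hS.1 _ (List.getElem_mem ht)).le
  · rw [List.getD_eq_default _ _ (by omega)]
    omega

theorem run_tok (hS : RSwf S) {t : ℕ} (v : List ℕ)
    (hv : ∀ a ∈ v, a ≠ 1 ∧ a ≠ 3 ∧ a < 4 + S.2.2.1.length) (x : ℕ) (hx : x ≤ S.1) :
    ∃ y ≤ S.1, runN S (sv S t x) v = sv S t y ∧
      y = v.foldl (fun x a => if a = 0 then x else if a = 2 then S.2.1.getD t 0 else
    tok S.1 (S.2.2.1.getD (a - 4) []) t x) x := by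
  induction v generalizing x with
  | nil => exact ⟨x, hx, rfl, rfl⟩
  | cons a v ih =>
    have h1 := hv a (by simp)
    have h2 : ∀ a ∈ v, a ≠ 1 ∧ a ≠ 3 ∧ a < 4 + S.2.2.1.length :=
      fun b hb => hv b (List.mem_cons_of_mem _ hb)
    have e : runN S (sv S t x) (a :: v) = runN S (dl S (sv S t x) a) v := rfl
    rw [e, List.foldl_cons]
    by_cases a0 : a = 0
    · subst a0
      rw [dl_id, if_pos rfl]
      exact ih h2 x hx
    by_cases a2 : a = 2
    · subst a2
      rw [dl_init hx, min_eq_left (getD_le hS t), if_neg (by omega), if_pos rfl]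
      exact ih h2 _ (getD_le hS t)
    · obtain ⟨i, rfl⟩ : ∃ i, a = 4 + i := ⟨a - 4, by omega⟩
      have hi : i < S.2.2.1.length := by omega
      have h3 := tok_le hS (getD_mem hi) (t := t) hx
      rw [dl_rule hx, min_eq_left h3, if_neg (by omega), if_neg (by omega),
        Nat.add_sub_cancel_left]
      exact ih h2 _ h3

/-- after the last init letter only rules matter -/
theorem rules_of_word (v : List ℕ) (hv : ∀ a ∈ v, a ≠ 1 ∧ a ≠ 3 ∧ a < 4 + S.2.2.1.length) :
    ∃ w : List ℕ, (∀ i ∈ w, i < S.2.2.1.length) ∧ ∀ t, tval S t v =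
      runT S w t (S.2.1.getD t 0) := by
  induction v using List.reverseRecOn with
  | nil => exact ⟨[], by simp, fun t => rfl⟩
  | append_singleton v a ih =>
    have h1 := hv a (by simp)
    obtain ⟨w, hw1, hw2⟩ := ih (fun b hb => hv b (by simp [hb]))
    by_cases a0 : a = 0
    · refine ⟨w, hw1, fun t => ?_⟩
      rw [← hw2]
      unfold tval
      rw [List.foldl_append, List.foldl_cons, List.foldl_nil, if_pos a0]
    by_cases a2 : a = 2
    · refine ⟨[], by simp, fun t => ?_⟩
      unfold tval
      rw [List.foldl_append, List.foldl_cons, List.foldl_nil, if_neg a0, if_pos a2]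
      rfl
    · refine ⟨w ++ [a - 4], ?_, fun t => ?_⟩
      · intro i hi
        rcases List.mem_append.1 hi with hi | hi
        · exact hw1 i hi
        · rw [List.mem_singleton] at hi
          omega
      · have e : runT S (w ++ [a - 4]) t (S.2.1.getD t 0) =
            tok S.1 (S.2.2.1.getD (a - 4) []) t (runT S w t (S.2.1.getD t 0)) := by
          unfold runT
          rw [List.foldl_append]
          rfl
        rw [e, ← hw2]
        unfold tval
        rw [List.foldl_append, List.foldl_cons, List.foldl_nil, if_neg a0, if_neg a2]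

theorem reset_iff (hS : RSwf S) : Reset (aut S) ↔ ¬ RSyes S := by
  rw [RSyes_iff]
  have hex : ∃ u, (aut S).Syn u := by
    refine ⟨[⟨1, by change 1 < 4 + S.2.2.1.length; omega⟩], ?_⟩
    exact syn_of_one (by simp)
  constructor
  · rintro ⟨_, h⟩ ⟨w, hw1, hw2⟩
    have hm : ∀ a ∈ (2 :: w.map (4 + ·)) ++ [3], a < (aut S).m := by
      intro a ha
      change a < 4 + S.2.2.1.length
      rcases List.mem_append.1 ha with ha | ha
      · rcases List.mem_cons.1 ha with rfl | ha
        · omega
        · obtain ⟨i, hi, rfl⟩ := List.mem_map.1 ha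
          have := hw1 i hi
          omega
      · rw [List.mem_singleton] at ha
        omega
    set u : List (Fin (aut S).m) := ((2 :: w.map (4 + ·)) ++ [3]).pmap (fun a ha => ⟨a, ha⟩) hm
      with hu
    have huv : u.map Fin.val = (2 :: w.map (4 + ·)) ++ [3] := by
      rw [hu, List.map_pmap]
      simp
    have hmid : ∀ a ∈ (2 :: w.map (4 + ·)), a ≠ 1 ∧ a ≠ 3 ∧ a < 4 + S.2.2.1.length := by
      intro a ha
      rcases List.mem_cons.1 ha with rfl | ha
      · omega
      · obtain ⟨i, hi, rfl⟩ := List.mem_map.1 ha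
        have := hw1 i hi
        omega
    have hfold : ∀ (w : List ℕ) (t x : ℕ), (w.map (4 + ·)).foldl
        (fun x a => if a = 0 then x else if a = 2 then S.2.1.getD t 0 else
          tok S.1 (S.2.2.1.getD (a - 4) []) t x) x = runT S w t x := by
      intro w t
      induction w with
      | nil => intro x; rfl
      | cons i w ih =>
        intro x
        rw [List.map_cons, List.foldl_cons, ih, if_neg (by omega), if_neg (by omega),
          Nat.add_sub_cancel_left]
        rfl
    have hsyn : (aut S).Syn u := by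
      rw [syn_iff, huv]
      intro s hs
      by_cases s0 : s = 0
      · rw [s0, runN_zero]
      by_cases s1 : s = 1
      · subst s1
        rw [runN_append]
        have h1 : ∀ v : List ℕ, (∀ a ∈ v, a ≠ 1 ∧ a ≠ 3 ∧ a < 4 + S.2.2.1.length) →
            runN S 1 v = 1 := by
          intro v hv
          induction v with
          | nil => rfl
          | cons a v ih =>
            have e : runN S 1 (a :: v) = runN S (dl S 1 a) v := rfl
            rw [e, dl_dummy (hv a (by simp)).1 (hv a (by simp)).2.1]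
            exact ih (fun b hb => hv b (List.mem_cons_of_mem _ hb))
        rw [h1 _ hmid]
        exact dl_dummy3 (S := S)
      · obtain ⟨t, x, ht, hx, rfl⟩ := exists_sv hs (by omega)
        obtain ⟨y, hy, h1, h2⟩ := run_tok hS (t := t) _ hmid x hx
        rw [runN_append, h1]
        rw [List.foldl_cons, if_neg (by omega), if_pos rfl, hfold] at h2
        have h3 := hw2 t ht
        rw [← h2] at h3
        change dl S (sv S t y) 3 = 0
        rw [dl_exit hy, if_pos h3]
    have h1 := h ⟨1, by unfold aut ns; simp only; omega⟩ u hsyn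
    rw [syn_output_iff, huv] at h1
    have h2 : ∀ v : List ℕ, (∀ a ∈ v, a ≠ 1 ∧ a ≠ 3 ∧ a < 4 + S.2.2.1.length) →
        1 ∉ outN S 1 (v ++ [3]) := by
      intro v hv
      induction v with
      | nil =>
        rw [List.nil_append, outN, outN]
        unfold ot
        simp
      | cons a v ih =>
        have h4 := hv a (by simp)
        rw [List.cons_append, outN, dl_dummy h4.1 h4.2.1, List.mem_cons, not_or]
        refine ⟨?_, ih (fun b hb => hv b (List.mem_cons_of_mem _ hb))⟩
        unfold ot
        rw [if_neg (by omega), if_neg h4.1, if_pos rfl]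
        omega
    exact h2 _ hmid h1
  · intro hno
    refine ⟨hex, fun q u hu => ?_⟩
    rw [syn_output_iff]
    by_contra hout
    rw [syn_iff] at hu
    apply hno
    have hlt : q.val < ns S + 1 := q.2
    have hq : q.val ≠ 0 := by
      intro h0
      rw [h0] at hout
      rcases hc : u.map Fin.val with _ | ⟨a, u'⟩
      · have := hu 1 (by unfold ns; omega)
        rw [hc] at this
        exact absurd this (by change ¬ (1 = 0); omega)
      · rw [hc, outN, List.mem_cons, not_or] at hout
        apply hout.1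
        unfold ot
        rw [if_pos rfl]
    obtain ⟨v, hv1, hv2⟩ := track hq hlt _ hout (hu _ hlt)
    have hv3 : ∀ a ∈ v, a ≠ 1 ∧ a ≠ 3 ∧ a < 4 + S.2.2.1.length := by
      intro a ha
      refine ⟨(hv2 a ha).1, (hv2 a ha).2, ?_⟩
      have h1 : a ∈ u.map Fin.val := by rw [hv1]; simp [ha]
      obtain ⟨b, _, rfl⟩ := List.mem_map.1 h1
      exact b.2
    obtain ⟨w, hw1, hw2⟩ := rules_of_word (S := S) v hv3
    refine ⟨w, hw1, fun t ht => ?_⟩
    have h1 := hu (sv S t (S.2.1.getD t 0)) (sv_lt ht (getD_le hS t))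
    rw [hv1, runN_append] at h1
    obtain ⟨y, hy, h2, h3⟩ := run_tok hS (t := t) v hv3 _ (getD_le hS t)
    rw [h2] at h1
    change dl S (sv S t y) 3 = 0 at h1
    rw [dl_exit hy] at h1
    have h4 : y = tval S t v := h3
    rw [← hw2, ← h4]
    by_contra h5
    rw [if_neg h5] at h1
    exact sv_ne.1 h1

end Pool.Agent.X245.RM
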