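import Pool.Agent.X245.RM.Red
import Pool.Agent.H671R2.PolyAuto

/-!
# RESET is PSPACE-hard
-/

namespace Pool.Agent.X245.RM

open Pool.Agent.NPC Pool.Agent.H623R2.PS

set_option autoImplicit false

variable {α : Type} [TEnc α]

theorem poly_tok' {V t v : α → ℕ} {R : α → Rule} (hV : NPC.Poly V) (hR : NPC.Poly R)
    (ht : NPC.Poly t) (hv : NPC.Poly v) : NPC.Poly (fun a => tok (V a) (R a) (t a) (v a)) :=
  poly_tok hV hR ht hv

theorem poly_okf' {V t v : α → ℕ} {F : α → List (ℕ × ℕ)} (hV : NPC.Poly V) (hF : NPC.Poly F)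
    (ht : NPC.Poly t) (hv : NPC.Poly v) : NPC.Poly (fun a => okf (V a) (F a) (t a) (v a)) :=
  poly_okf hV hF ht hv

attribute [local fun_prop] poly_tok' poly_okf'

theorem poly_dl {S : α → RS} {s a : α → ℕ} (hS : NPC.Poly S) (hs : NPC.Poly s) (ha : NPC.Poly a) :
    NPC.Poly (fun x => dl (S x) (s x) (a x)) := by
  unfold dl sv tk vl
  fun_prop

theorem poly_ot {S : α → RS} {s a : α → ℕ} (hS : NPC.Poly S) (hs : NPC.Poly s) (ha : NPC.Poly a) :
    NPC.Poly (fun x => ot (S x) (s x) (a x)) := by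
  unfold ot tk vl
  fun_prop

theorem poly_aut {S : α → RS} (hS : NPC.Poly S) (hU : UPoly (fun x => (S x).1)) :
    NPC.Poly (fun x => aut (S x)) := by
  have hI : NPC.Poly (fun x => (S x).2.1) := by fun_prop
  have hR : NPC.Poly (fun x => (S x).2.2.1) := by fun_prop
  have hn : UPoly (fun x => ns (S x) + 1) := by
    unfold ns
    exact UPoly.add (UPoly.add (UPoly.const _)
      (UPoly.mul (UPoly.length hI) (UPoly.add hU (UPoly.const 1)))) (UPoly.const 1)
  have hm : UPoly (fun x => 4 + (S x).2.2.1.length) := UPoly.add (UPoly.const 4) (UPoly.length hR)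
  have hx1 : NPC.Poly (fun p : α × ℕ => p.1) := NPC.Poly.fst NPC.Poly.id
  have hx : NPC.Poly (fun p : (α × ℕ) × ℕ => p.1.1) := NPC.Poly.fst (NPC.Poly.fst NPC.Poly.id)
  have ha : NPC.Poly (fun p : (α × ℕ) × ℕ => p.1.2) := NPC.Poly.snd (NPC.Poly.fst NPC.Poly.id)
  have hs : NPC.Poly (fun p : (α × ℕ) × ℕ => p.2) := NPC.Poly.snd NPC.Poly.id
  have h1 : NPC.Poly (fun x => (List.range (ns (S x) + 1)).map fun s =>
      (List.range (4 + (S x).2.2.1.length)).map fun a =>
        (if dl (S x) s a < ns (S x) + 1 then dl (S x) s a else 0, ot (S x) s a)) := by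
    refine NPC.Poly.map (F := fun x s => (List.range (4 + (S x).2.2.1.length)).map fun a =>
      (if dl (S x) s a < ns (S x) + 1 then dl (S x) s a else 0, ot (S x) s a)) hn.range ?_
    refine NPC.Poly.map (F := fun (p : α × ℕ) a =>
      (if dl (S p.1) p.2 a < ns (S p.1) + 1 then dl (S p.1) p.2 a else 0, ot (S p.1) p.2 a))
      (hm.comp hx1).range ?_
    have hd := poly_dl (hS.comp hx) ha hs
    exact NPC.Poly.pair (NPC.Poly.ite (NPC.Poly.decide_lt hd (hn.toPoly.comp hx)) hd
      (NPC.Poly.const 0)) (poly_ot (hS.comp hx) ha hs)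
  refine NPC.Poly.of_toT ((NPC.Poly.toT' h1).congr fun x => ?_)
  change toT _ = toT (aut (S x)).code
  congr 1
  unfold Mealy.code
  change _ = (List.finRange (ns (S x) + 1)).map fun q => _
  rw [← finRange_map_val]
  refine List.map_congr_left fun q _ => ?_
  change _ = (List.finRange (4 + (S x).2.2.1.length)).map fun a => _
  rw [← finRange_map_val]
  rfl

/-- RESET is `PSPACE`-hard. -/
theorem hard : PSPACEHard (lang Reset) := by
  intro L hL
  obtain ⟨S, hS, hU, hwf, hiff⟩ := pspace_rules (inPSPACE_compl hL)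
  refine ⟨fun x => bits (aut (S x)), ?_, ?_⟩
  · have h1 : PC (bits : List Bool → List Bool) (bits : Mealy → List Bool)
        (fun x => aut (S x)) := poly_aut hS hU
    have h2 : PC (fun x : List Bool => x) (bits : List Bool → List Bool) (fun x => x) := PC.ofBits
    obtain ⟨c, p, h⟩ := PC.comp h1 h2
    exact PC.toPolyTime ⟨c, p, h⟩
  · intro x
    have h0 : x ∈ L ↔ ¬ RSyes (S x) := by
      rw [← hiff, Set.mem_compl_iff, not_not]
    rw [h0, ← reset_iff (hwf x)]
    unfold lang
    constructor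
    · intro h
      exact ⟨_, rfl, h⟩
    · rintro ⟨I, hI, h⟩
      have : I = aut (S x) := TEnc.inj (T.enc_injective hI)
      rwa [this] at h

end Pool.Agent.X245.RM
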